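import Pool.Agent.Helper36_XQ.Stmt4
import Pool.Agent.Helper53_AEU.Inv

/-!
Squad XQ (MP_5b0138_an), part A4, module TRF: transfer of the corner kernels by isometries.
-/

namespace Pool.Agent.XQ.K4.H66

open MeasureTheory Complex Filter Topology ProbabilityTheory Pool.Agent.H16Iso Pool.Agent.H62T
  Pool.Agent.H16F Pool.Agent.H38KL
open scoped ENNReal NNReal

theorem Dm_img (u : Fin 4 → ℂ) (h : Fin 4 → ℝ) (g : ℂ ≃ᵢ ℂ) (v : Fin 3 → ℂ) (k : Fin 3 → ℝ)
    (B : Finset (Fin 4)) (B' : Finset (Fin 3))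
    (hB : ∀ x, (∀ s ∈ B, ip (u s) (g x) < h s) ↔ ∀ s ∈ B', ip (v s) x < k s) :
    Dm u h B = g '' H60K.Dm v k B' := by
  ext x
  constructor
  · intro hx
    refine ⟨g.symm x, ?_, g.apply_symm_apply x⟩
    refine (hB (g.symm x)).1 ?_
    rw [g.apply_symm_apply]
    exact hx
  · rintro ⟨y, hy, rfl⟩
    exact (hB y).2 hy

theorem pB_img (u : Fin 4 → ℂ) (h : Fin 4 → ℝ) (g : ℂ ≃ᵢ ℂ) (v : Fin 3 → ℂ) (k : Fin 3 → ℝ)
    (B : Finset (Fin 4)) (B' : Finset (Fin 3))
    (hB : ∀ x, (∀ s ∈ B, ip (u s) (g x) < h s) ↔ ∀ s ∈ B', ip (v s) x < k s)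
    (t : ℝ) (x y : ℂ) :
    pB u h B t (g x) (g y) = H60K.pB v k B' t x y := by
  unfold pB H60K.pB
  rw [Dm_img u h g v k B B' hB, H60K.H53.pD_isom]

/-- TRF -/
theorem trf : TrfStatement := by
  intro u h g s1 s2 η1 η2 hs h1 h2 t x y _
  have e1 : ∀ x, ip (u s1) (g x) < h s1 ↔ ip (H60K.us η1 η2 1) x < H60K.hh 1 1 := by
    intro x
    have := h1 x
    have h0 : H60K.hh 1 1 = 0 := by simp [H60K.hh]
    rw [h0]
    constructor <;> intro h3 <;> linarith
  have e2 : ∀ x, ip (u s2) (g x) < h s2 ↔ ip (H60K.us η1 η2 2) x < H60K.hh 1 2 := by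
    intro x
    have := h2 x
    have h0 : H60K.hh 1 2 = 0 := by simp [H60K.hh]
    rw [h0]
    constructor <;> intro h3 <;> linarith
  have p0 : pB u h ∅ t (g x) (g y) = H60K.pB (H60K.us η1 η2) (H60K.hh 1) ∅ t x y :=
    pB_img u h g _ _ ∅ ∅ (by simp) t x y
  have p1 : pB u h {s1} t (g x) (g y) = H60K.pB (H60K.us η1 η2) (H60K.hh 1) {1} t x y :=
    pB_img u h g _ _ {s1} {1} (by simpa using e1) t x y
  have p2 : pB u h {s2} t (g x) (g y) = H60K.pB (H60K.us η1 η2) (H60K.hh 1) {2} t x y :=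
    pB_img u h g _ _ {s2} {2} (by simpa using e2) t x y
  have p12 : pB u h {s1, s2} t (g x) (g y) = H60K.pB (H60K.us η1 η2) (H60K.hh 1) {1, 2} t x y := by
    refine pB_img u h g _ _ {s1, s2} {1, 2} (fun x => ?_) t x y
    simp only [Finset.mem_insert, Finset.mem_singleton, forall_eq_or_imp, forall_eq]
    rw [e1, e2]
  have a1 : s1 ∉ ({s2} : Finset (Fin 4)) := by simpa using hs
  have a2 : s2 ∉ (∅ : Finset (Fin 4)) := by simp
  have b1 : (1 : Fin 3) ∉ ({2} : Finset (Fin 3)) := by decide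
  have b2 : (2 : Fin 3) ∉ (∅ : Finset (Fin 3)) := by simp
  have c1 : ({s2} : Finset (Fin 4)) = insert s2 ∅ := rfl
  have c2 : ({2} : Finset (Fin 3)) = insert 2 ∅ := rfl
  constructor
  · unfold kME H60K.kME
    rw [Finset.sum_powerset_insert a1, Finset.sum_powerset_insert b1]
    rw [c1, c2, Finset.sum_powerset_insert a2, Finset.sum_powerset_insert b2,
      Finset.sum_powerset_insert a2, Finset.sum_powerset_insert b2]
    simp only [Finset.powerset_empty, Finset.sum_singleton, Finset.empty_union,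
      Finset.card_empty, insert_empty_eq, Finset.card_singleton]
    rw [p0, p1, p2, p12, Finset.card_pair hs, Finset.card_pair (by decide : (1 : Fin 3) ≠ 2)]
  · have d1 : ({s1} : Finset (Fin 4)) = insert s1 ∅ := rfl
    have d2 : ({1} : Finset (Fin 3)) = insert 1 ∅ := rfl
    unfold kME H60K.kME
    rw [d1, d2, Finset.sum_powerset_insert (by simp : s1 ∉ (∅ : Finset (Fin 4))),
      Finset.sum_powerset_insert (by simp : (1 : Fin 3) ∉ (∅ : Finset (Fin 3)))]
    have f1 : ({s2} ∪ {s1} : Finset (Fin 4)) = {s1, s2} := by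
      ext a; simp only [Finset.mem_union, Finset.mem_singleton, Finset.mem_insert]; tauto
    have f2 : ({2} ∪ {1} : Finset (Fin 3)) = {1, 2} := by decide
    simp only [Finset.powerset_empty, Finset.sum_singleton, Finset.union_empty,
      Finset.card_empty, insert_empty_eq, Finset.card_singleton]
    rw [f1, f2, p2, p12]

end Pool.Agent.XQ.K4.H66
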